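import Pool.Agent.H870R4.Noz.Stmts

set_option autoImplicit false

open MeasureTheory Set
open scoped ContDiff

namespace H870N.TransN

/-- the isometry `u ↦ u 0 + i u 1` -/
noncomputable def J : E2 ≃ₗᵢ[ℝ] ℂ := Complex.orthonormalBasisOneI.repr.symm

lemma J_apply (u : E2) : J u = (u 0 : ℂ) + (u 1 : ℂ) * Complex.I := by
  simp [J, Complex.orthonormalBasisOneI_repr_symm_apply]

lemma J_re (u : E2) : (J u).re = u 0 := by simp [J_apply]
lemma J_im (u : E2) : (J u).im = u 1 := by simp [J_apply]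
lemma J_e0 : J e0 = 1 := by simp [J_apply, e0]
lemma J_e1 : J e1 = Complex.I := by simp [J_apply, e1]

lemma mem_rect {L R h : ℝ} {u : E2} : u ∈ rect L R h ↔ J u ∈ crect L R h := by
  simp [rect, crect, J_re, J_im]

lemma isOpen_rect (L R h : ℝ) : IsOpen (rect L R h) := by
  have h0 : Continuous fun u : E2 => u 0 := by fun_prop
  have h1 : Continuous fun u : E2 => u 1 := by fun_prop
  exact (isOpen_lt continuous_const h0).inter ((isOpen_lt h0 continuous_const).inter
    (isOpen_lt h1.abs continuous_const))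

/-- the derivative as a map of `ℂ` -/
noncomputable def dd (a b : ℂ) : ℂ →L[ℝ] ℂ :=
  Complex.reCLM.smulRight a + Complex.imCLM.smulRight b

lemma dd_apply (a b v : ℂ) : dd a b v = (v.re : ℂ) * a + (v.im : ℂ) * b := by
  simp [dd]

lemma dd_id : dd 1 Complex.I = ContinuousLinearMap.id ℝ ℂ := by
  refine ContinuousLinearMap.ext fun v => ?_
  rw [dd_apply]; simp [Complex.re_add_im]

lemma dd_sub (a b : ℂ) : ‖dd a b - ContinuousLinearMap.id ℝ ℂ‖ ≤ ‖a - 1‖ + ‖b - Complex.I‖ := by
  refine ContinuousLinearMap.opNorm_le_bound _ (by positivity) fun v => ?_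
  rw [← dd_id]
  have : (dd a b - dd 1 Complex.I) v = (v.re : ℂ) * (a - 1) + (v.im : ℂ) * (b - Complex.I) := by
    rw [sub_apply, dd_apply, dd_apply]; ring
  rw [this]
  refine (norm_add_le _ _).trans ?_
  rw [norm_mul, norm_mul, Complex.norm_real, Complex.norm_real, add_mul]
  have h1 := Complex.abs_re_le_norm v
  have h2 := Complex.abs_im_le_norm v
  rw [Real.norm_eq_abs, Real.norm_eq_abs]
  nlinarith [norm_nonneg (a - 1), norm_nonneg (b - Complex.I)]

lemma dd_norm {a b : ℂ} {c : ℝ} (ha : ‖a‖ = c) (hb : ‖b‖ = c)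
    (hab : (a * (starRingEnd ℂ) b).re = 0) (v : ℂ) : ‖dd a b v‖ = c * ‖v‖ := by
  have hc : 0 ≤ c := ha ▸ norm_nonneg a
  rw [← sq_eq_sq₀ (norm_nonneg _) (by positivity), mul_pow, dd_apply]
  have e1 : a.re * a.re + a.im * a.im = c ^ 2 := by
    rw [← ha, ← Complex.normSq_apply, Complex.normSq_eq_norm_sq]
  have e2 : b.re * b.re + b.im * b.im = c ^ 2 := by
    rw [← hb, ← Complex.normSq_apply, Complex.normSq_eq_norm_sq]
  have e3 : a.re * b.re + a.im * b.im = 0 := by
    simpa [Complex.mul_re] using hab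
  rw [← Complex.normSq_eq_norm_sq, ← Complex.normSq_eq_norm_sq, Complex.normSq_apply,
    Complex.normSq_apply]
  simp only [Complex.add_re, Complex.mul_re, Complex.ofReal_re, Complex.ofReal_im, zero_mul,
    sub_zero, Complex.add_im, Complex.mul_im, add_zero]
  linear_combination (v.re ^ 2) * e1 + (v.im ^ 2) * e2 + 2 * v.re * v.im * e3

/-- if `A` is a multiple of an isometry, with left inverse `B`, then composition with `B` multiplies
norms -/
lemma norm_comp {E F : Type} [NormedAddCommGroup E] [NormedSpace ℝ E] [NormedAddCommGroup F]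
    [NormedSpace ℝ F] (A : E →L[ℝ] F) (B : F →L[ℝ] E) (hA : ∀ w, A (B w) = w)
    (hBA : ∀ v, B (A v) = v) {V : ℝ} (hV : 0 < V) (hn : ∀ v, ‖A v‖ = 1 / V * ‖v‖)
    (φ : E →L[ℝ] ℝ) : ‖φ.comp B‖ = ‖φ‖ * V := by
  apply le_antisymm
  · refine ContinuousLinearMap.opNorm_le_bound _ (by positivity) fun w => ?_
    have h1 : ‖B w‖ = V * ‖w‖ := by
      have := hn (B w)
      rw [hA] at this
      rw [this]; field_simp
    rw [ContinuousLinearMap.comp_apply]
    refine (φ.le_opNorm _).trans ?_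
    rw [h1, mul_assoc]
  · rw [← le_div_iff₀ hV]
    refine ContinuousLinearMap.opNorm_le_bound _ (by positivity) fun v => ?_
    have h1 : φ v = (φ.comp B) (A v) := by
      rw [ContinuousLinearMap.comp_apply, hBA]
    rw [h1]
    refine ((φ.comp B).le_opNorm _).trans ?_
    rw [hn]
    apply le_of_eq
    field_simp

end H870N.TransN

open H870N.TransN in
theorem H870N.taskTrans : H870N.TaskTrans := by
  rintro hN ⟨Yc, Vc, rc, Lamc, a, b, δ, ϑ, G⟩
  have hopen := isOpen_rect (1 / 30) 540 (1 / 200)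
  set Y : E2 → E2 := fun u => J.symm (Yc (J u)) with hY
  set D : E2 → E2 →L[ℝ] E2 := fun u =>
    (J.symm.toContinuousLinearEquiv : ℂ →L[ℝ] E2).comp ((dd (a (J u)) (b (J u))).comp
      (J.toContinuousLinearEquiv : E2 →L[ℝ] ℂ)) with hD
  have hDa : ∀ u v, D u v = J.symm (dd (a (J u)) (b (J u)) (J v)) := fun u v => rfl
  have hmem : ∀ u ∈ rect (1 / 30) 540 (1 / 200), J u ∈ crect (1 / 30) 540 (1 / 200) :=
    fun u hu => mem_rect.1 hu
  have hmaps : MapsTo J (rect (1 / 30) 540 (1 / 200)) (crect (1 / 30) 540 (1 / 200)) :=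
    fun u hu => mem_rect.1 hu
  have hJc : Continuous J := J.continuous
  have hder : ∀ u ∈ rect (1 / 30) 540 (1 / 200), HasFDerivAt Y (D u) u := by
    intro u hu
    have h1 := G.hd _ (hmem u hu)
    have h2 : HasFDerivAt (fun u : E2 => J u) (J.toContinuousLinearEquiv : E2 →L[ℝ] ℂ) u :=
      (J.toContinuousLinearEquiv : E2 →L[ℝ] ℂ).hasFDerivAt
    have h3 := HasFDerivAt.comp u h1 h2
    have h4 : HasFDerivAt (fun z : ℂ => J.symm z)
        (J.symm.toContinuousLinearEquiv : ℂ →L[ℝ] E2) (Yc (J u)) :=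
      (J.symm.toContinuousLinearEquiv : ℂ →L[ℝ] E2).hasFDerivAt
    exact HasFDerivAt.comp u h4 h3
  have hfd : ∀ u ∈ rect (1 / 30) 540 (1 / 200), fderiv ℝ Y u = D u := fun u hu =>
    (hder u hu).fderiv
  have hDc : ContinuousOn D (rect (1 / 30) 540 (1 / 200)) := by
    have ha : ContinuousOn (fun u => a (J u)) (rect (1 / 30) 540 (1 / 200)) :=
      G.ha.comp hJc.continuousOn hmaps
    have hb : ContinuousOn (fun u => b (J u)) (rect (1 / 30) 540 (1 / 200)) :=
      G.hb.comp hJc.continuousOn hmaps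
    have h1 : ContinuousOn (fun u => dd (a (J u)) (b (J u))) (rect (1 / 30) 540 (1 / 200)) := by
      unfold dd
      exact ((ContinuousLinearMap.smulRightL ℝ ℂ ℂ Complex.reCLM).continuous.comp_continuousOn
        ha).add ((ContinuousLinearMap.smulRightL ℝ ℂ ℂ Complex.imCLM).continuous.comp_continuousOn
        hb)
    exact continuousOn_const.clm_comp (h1.clm_comp continuousOn_const)
  have hYc1 : ContDiffOn ℝ 1 Y (rect (1 / 30) 540 (1 / 200)) := by
    have : (1 : WithTop ℕ∞) = 0 + 1 := by simp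
    rw [this, contDiffOn_succ_iff_fderiv_of_isOpen hopen]
    refine ⟨fun u hu => (hder u hu).differentiableAt.differentiableWithinAt, by simp, ?_⟩
    rw [contDiffOn_zero]
    exact hDc.congr fun u hu => hfd u hu
  have hnear : ∀ u ∈ rect (1 / 30) 540 (1 / 200),
      ‖fderiv ℝ Y u - ContinuousLinearMap.id ℝ E2‖ ≤ 1 / 2 := by
    intro u hu
    rw [hfd u hu]
    refine ContinuousLinearMap.opNorm_le_bound _ (by norm_num) fun v => ?_
    have h1 : (D u - ContinuousLinearMap.id ℝ E2) v =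
        J.symm ((dd (a (J u)) (b (J u)) - ContinuousLinearMap.id ℝ ℂ) (J v)) := by
      rw [sub_apply, sub_apply, map_sub, hDa]
      simp
    rw [h1, LinearIsometryEquiv.norm_map]
    refine (ContinuousLinearMap.le_opNorm _ _).trans ?_
    rw [LinearIsometryEquiv.norm_map]
    have h2 := dd_sub (a (J u)) (b (J u))
    have h3 := G.near _ (hmem u hu)
    nlinarith [norm_nonneg v, h3.1, h3.2]
  obtain ⟨Xi, hX1, hX2, hX3, hX4⟩ := hN Y (1 / 30) 540 (1 / 200) hYc1 hnear
  have hLam : ContDiffOn ℝ ∞ (fun u => Lamc (J u)) (rect (1 / 30) 540 (1 / 200)) :=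
    G.lamS.comp J.contDiff.contDiffOn hmaps
  set W : Set E2 := {u | u ∈ rect (1 / 30) 540 (1 / 200) ∧ -Real.pi < Lamc (J u) ∧
    Lamc (J u) < 2 * Real.pi} with hW
  have hWsub : W ⊆ rect (1 / 30) 540 (1 / 200) := fun u hu => hu.1
  have hWo : IsOpen W := by
    have := hLam.continuousOn.isOpen_inter_preimage hopen (isOpen_Ioo (a := -Real.pi)
      (b := 2 * Real.pi))
    exact this
  have hWm : MapsTo J W {w | w ∈ crect (1 / 30) 540 (1 / 200) ∧
    -Real.pi < Lamc w ∧ Lamc w < 2 * Real.pi} := fun u hu => ⟨hmem u hu.1, hu.2⟩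
  have hYW : ContDiffOn ℝ ∞ Y W :=
    J.symm.contDiff.comp_contDiffOn (G.smY.comp J.contDiff.contDiffOn hWm)
  obtain ⟨hW1, hW2⟩ := hX4 W hWsub hWo hYW
  have hXW : MapsTo Xi (Y '' W) W := by
    rintro _ ⟨u, hu, rfl⟩
    rw [hX1 u (hWsub hu)]
    exact hu
  refine ⟨Y, Xi, fun u => Vc (J u), fun u => rc (J u), fun u => Lamc (J u), δ, ϑ, G.hδ, G.hϑ,
    ⟨hYc1, hX3, hX2, hX1, G.hV.comp hJc.continuousOn hmaps, G.hr.comp hJc.continuousOn hmaps,
      fun u hu => G.Vpos _ (hmem u hu), fun u hu => G.rpos _ (hmem u hu), ?_, ?_, ?_⟩, hLam,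
    fun u hu => G.out _ (hmem u hu), fun u hu => G.mid _ (hmem u hu), ?_, ?_, ?_, ?_, ?_, ?_⟩
  · intro u hu
    rw [hfd u hu, hDa, LinearIsometryEquiv.norm_map, J_e0, dd_apply]
    simpa using G.na _ (hmem u hu)
  · intro u hu
    rw [hfd u hu, hDa, LinearIsometryEquiv.norm_map, J_e1, dd_apply]
    simpa using G.nb _ (hmem u hu)
  · intro u hu
    rw [hfd u hu, hDa, hDa, LinearIsometryEquiv.inner_map_map, J_e0, J_e1, dd_apply, dd_apply]
    have := G.orth _ (hmem u hu)
    simp only [Complex.inner]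
    simp [Complex.mul_re] at this ⊢
    linarith
  · intro u hu h
    exact G.l1 _ (hmem u hu) (by rwa [J_re])
  · intro u hu h
    exact G.l2 _ (hmem u hu) (by rwa [J_re])
  · intro u hu h h'
    exact G.cham _ (hmem u hu) (by rwa [J_re]) (by rwa [J_re])
  · exact (hLam.mono hWsub).comp hW2 hXW
  · exact (G.smV.comp J.contDiff.contDiffOn hWm).comp hW2 hXW
  · intro u hu h1 h2
    have hr := G.mid _ (hmem u hu) h1 h2
    have heik := G.eik _ (hmem u hu) h1 h2
    have hV := (G.Vpos _ (hmem u hu)).1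
    have hna := G.na _ (hmem u hu)
    have hnb := G.nb _ (hmem u hu)
    rw [hr, mul_one] at hnb
    have hdn := dd_norm hna hnb (G.orth _ (hmem u hu))
    have hYu : Y u ∈ Y '' rect (1 / 30) 540 (1 / 200) := ⟨u, hu, rfl⟩
    have hXd : HasFDerivAt Xi (fderiv ℝ Xi (Y u)) (Y u) :=
      ((hX3.differentiableOn (by simp)).differentiableAt (hX2.mem_nhds hYu)).hasFDerivAt
    set B := fderiv ℝ Xi (Y u) with hB
    have hBD : B.comp (D u) = ContinuousLinearMap.id ℝ E2 := by
      have e1 := HasFDerivAt.comp u hXd (hder u hu)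
      have e2 : HasFDerivAt (Xi ∘ Y) (ContinuousLinearMap.id ℝ E2) u := by
        refine (hasFDerivAt_id u).congr_of_eventuallyEq ?_
        filter_upwards [hopen.mem_nhds hu] with v hv
        exact hX1 v hv
      exact e1.unique e2
    have hBA : ∀ v, B (D u v) = v := fun v => by
      have := DFunLike.congr_fun hBD v
      simpa using this
    have hAB : ∀ w, D u (B w) = w := by
      have e1 : (B : E2 →ₗ[ℝ] E2) * (D u : E2 →ₗ[ℝ] E2) = 1 := by
        apply LinearMap.ext
        intro v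
        exact hBA v
      have e2 := mul_eq_one_comm.1 e1
      intro w
      exact DFunLike.congr_fun e2 w
    have hJd : HasFDerivAt (fun u : E2 => J u) (J.toContinuousLinearEquiv : E2 →L[ℝ] ℂ)
        (Xi (Y u)) := (J.toContinuousLinearEquiv : E2 →L[ℝ] ℂ).hasFDerivAt
    have hLd : HasFDerivAt Lamc (fderiv ℝ Lamc (J u)) (J (Xi (Y u))) := by
      rw [hX1 u hu]
      have ho : IsOpen (crect (1 / 30) 540 (1 / 200)) := by
        have : crect (1 / 30) 540 (1 / 200) = J.symm ⁻¹' rect (1 / 30) 540 (1 / 200) := by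
          ext w
          rw [mem_preimage, mem_rect, LinearIsometryEquiv.apply_symm_apply]
        rw [this]
        exact hopen.preimage J.symm.continuous
      exact ((G.lamS.differentiableOn (by simp)).differentiableAt
        (ho.mem_nhds (hmem u hu))).hasFDerivAt
    have hcomp : HasFDerivAt (fun x => Lamc (J (Xi x)))
        ((fderiv ℝ Lamc (J u)).comp ((J.toContinuousLinearEquiv : E2 →L[ℝ] ℂ).comp B)) (Y u) :=
      HasFDerivAt.comp (Y u) hLd (HasFDerivAt.comp (Y u) hJd hXd)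
    have hgrad : ‖gradient (fun x => Lamc (J (Xi x))) (Y u)‖ =
        ‖(fderiv ℝ Lamc (J u)).comp ((J.toContinuousLinearEquiv : E2 →L[ℝ] ℂ).comp B)‖ := by
      rw [gradient, LinearIsometryEquiv.norm_map, hcomp.fderiv]
    have hkey := norm_comp ((D u).comp (J.symm.toContinuousLinearEquiv : ℂ →L[ℝ] E2))
      ((J.toContinuousLinearEquiv : E2 →L[ℝ] ℂ).comp B) (V := Vc (J u)) (fun w => by
        change D u (J.symm (J (B w))) = w
        rw [LinearIsometryEquiv.symm_apply_apply, hAB]) (fun v => by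
        change J (B (D u (J.symm v))) = v
        rw [hBA, LinearIsometryEquiv.apply_symm_apply]) hV (fun v => by
        change ‖D u (J.symm v)‖ = _
        rw [hDa, LinearIsometryEquiv.norm_map, LinearIsometryEquiv.apply_symm_apply, hdn])
      (fderiv ℝ Lamc (J u))
    rw [hgrad, hkey, mul_pow, ← mul_assoc]
    exact heik
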